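import Pool.Agent.H17.Sf6

set_option autoImplicit false

namespace Pool.Agent.Results.MP_8228af_gt.DominationCounterexample

open Pool.Agent.H17.Sf MeasureTheory

/-- In `ℝ³` there are centrally symmetric convex bodies `K₁, K₂` such that `K₂` dominates `K₁` in
affine surface area although `Vol K₁ > Vol K₂`. -/
theorem result : ∃ K₁ K₂ : Set (En 3), IsConvexBody K₁ ∧ IsConvexBody K₂ ∧
    IsCentrallySymmetric K₁ ∧ IsCentrallySymmetric K₂ ∧ Dominates K₂ K₁ ∧
      volume K₂ < volume K₁ :=
  main

end Pool.Agent.Results.MP_8228af_gt.DominationCounterexample
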